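import Pool.Agent.W658.KE.All

/-!
# All even arm exponents of critical bond percolation on the square lattice, in annuli

For every `k ≥ 2` and every inner radius `d ≥ k`, the probability that `k` different open clusters
cross the annulus `d ≤ max (|x|, |y|) ≤ n` (`2 k` alternating arms) is of order
`n ^ (-(4 k ^ 2 - 1) / 12)`, up to constants.
-/

set_option autoImplicit false

namespace Pool.Agent.Results.MP_35f495_pr.EvenAnnuli

open MeasureTheory

/-- The square lattice: two points of `ℤ²` are adjacent when they differ by one in exactly one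
coordinate. -/
def Z2 : SimpleGraph (ℤ × ℤ) where
  Adj u v := |u.1 - v.1| + |u.2 - v.2| = 1
  symm := ⟨fun u v h => by rw [abs_sub_comm v.1, abs_sub_comm v.2]; exact h⟩
  loopless := ⟨fun u h => by simp at h⟩

/-- Critical bond percolation: every edge of the square lattice is open (`true`) with
probability `1/2`, independently of the other edges. -/
noncomputable def crit : Measure (Z2.edgeSet → Bool) :=
  Measure.infinitePi (fun _ => ProbabilityTheory.bernoulliMeasure true false
    ⟨1/2, by norm_num, by norm_num⟩)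

/-- The graph of the open edges with both ends in the annulus `d ≤ max (|x|, |y|) ≤ n`. -/
def annGraph (d n : ℕ) (ω : Z2.edgeSet → Bool) : SimpleGraph (ℤ × ℤ) :=
  SimpleGraph.fromEdgeSet {e | (∃ h : e ∈ Z2.edgeSet, ω ⟨e, h⟩ = true) ∧
    ∀ v ∈ e, (d : ℤ) ≤ max |v.1| |v.2| ∧ max |v.1| |v.2| ≤ n}

/-- `k` different open clusters of the annulus `d ≤ max (|x|, |y|) ≤ n` join its two boundaries. -/
def Clusters (k d n : ℕ) (ω : Z2.edgeSet → Bool) : Prop :=
  ∃ x : Fin k → ℤ × ℤ, (∀ i, max |(x i).1| |(x i).2| = d ∧ ∃ y : ℤ × ℤ, max |y.1| |y.2| = n ∧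
    (annGraph d n ω).Reachable (x i) y) ∧ ∀ i j, i ≠ j → ¬ (annGraph d n ω).Reachable (x i) (x j)

/-- **All even arm exponents in annuli.** -/
theorem result : ∀ k d : ℕ, 2 ≤ k → k ≤ d → ∃ c C : ℝ, 0 < c ∧ 0 < C ∧ ∀ n : ℕ, d ≤ n →
    c * (n : ℝ) ^ (-((4 * (k : ℝ) ^ 2 - 1) / 12)) ≤ crit.real {ω | Clusters k d n ω} ∧
    crit.real {ω | Clusters k d n ω} ≤ C * (n : ℝ) ^ (-((4 * (k : ℝ) ^ 2 - 1) / 12)) :=
  Pool.Agent.W658.KE.a_LAW

end Pool.Agent.Results.MP_35f495_pr.EvenAnnuli
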