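import Pool.Agent.W808.KU.All

/-!
Critical bond percolation on the square lattice (rotated by 45 degrees) in the plane cut along a slit:
the probability of `j` alternating arms from the tip of the slit to distance `R` is of order
`R ^ (-j (j + 1) / 12)`: lower bound for all `j ≥ 1`, upper bound for all odd `j ≥ 3`.

Each unit square `[j, j+1] × [t, t+1]` contains exactly one of its two diagonals, with probability `1/2`
each, independently (fair coins).  The diagonals through the points `(j, t)` with `j + t` even are the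
open bonds of a square lattice, the other diagonals are its dual-open bonds.
-/

set_option autoImplicit false

namespace Pool.Agent.Results.MP_35f495_pr.SlitPlaneArms

open MeasureTheory

/-- Fair coins: one for each unit square with lower left corner `(j, t) ∈ ℤ × ℤ`. -/
noncomputable def coins : Measure (ℤ × ℤ → Bool) :=
  Measure.infinitePi (fun _ => ProbabilityTheory.bernoulliMeasure true false
    ⟨1/2, by norm_num, by norm_num⟩)

/-- The links in the box `|j|, |t| ≤ R` of the slit plane: the diagonal of the square with lower left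
corner `(j, t)` rises if the coin of `(j, t)` shows `false` and falls if it shows `true`; the squares
with `t < 0` and `0 ≤ j < m` are removed (the slit).  On each of the two walls of the slit, the columns
`0` and `m`, the points of the heights `0, -2, -4, …` are wired together. -/
inductive Link (m R : ℕ) (ω : ℤ × ℤ → Bool) : ℤ × ℤ → ℤ × ℤ → Prop
  | rise (j t : ℤ) : (0 ≤ t ∨ j < 0 ∨ (m : ℤ) ≤ j) → ω (j, t) = false → -(R : ℤ) ≤ j → j + 1 ≤ R →
      -(R : ℤ) ≤ t → t + 1 ≤ R → Link m R ω (j, t) (j + 1, t + 1)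
  | fall (j t : ℤ) : (0 ≤ t ∨ j < 0 ∨ (m : ℤ) ≤ j) → ω (j, t) = true → -(R : ℤ) ≤ j → j + 1 ≤ R →
      -(R : ℤ) ≤ t → t + 1 ≤ R → Link m R ω (j + 1, t) (j, t + 1)
  | wallL (i : ℕ) : 2 * i + 2 ≤ R → Link m R ω (0, -(2 * i : ℤ)) (0, -(2 * i : ℤ) - 2)
  | wallR (i : ℕ) : 2 * i + 2 ≤ R → Link m R ω ((m : ℤ), -(2 * i : ℤ)) ((m : ℤ), -(2 * i : ℤ) - 2)

/-- Connection by links in the box. -/
def Conn (m R : ℕ) (ω : ℤ × ℤ → Bool) : ℤ × ℤ → ℤ × ℤ → Prop := Relation.EqvGen (Link m R ω)

/-- `m - 1` arms at the tip of the slit of thickness `m`: the points `(1, 0), …, (m - 1, 0)` of the tip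
are pairwise not connected, not connected to the walls (the points `(0, 0)` and `(m, 0)`), and each of
them is connected to distance `R`. The clusters of neighbouring points are of different type (primal and
dual), so the arms alternate. -/
def Arms (m R : ℕ) (ω : ℤ × ℤ → Bool) : Prop :=
  (∀ c d : ℕ, 1 ≤ c → c < m → d ≤ m → c ≠ d → ¬ Conn m R ω ((c : ℤ), 0) ((d : ℤ), 0)) ∧
  (∀ c : ℕ, 1 ≤ c → c < m → ∃ y : ℤ × ℤ, (|y.1| = R ∨ |y.2| = R) ∧ Conn m R ω ((c : ℤ), 0) y)

/-- **Arms at the tip of a slit.** For every `j ≥ 1` the probability of `j` alternating arms from the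
tip of a slit (of thickness `j + 1`) to distance `R` is at least `c R ^ (-j (j + 1) / 12)`, `c > 0`; for
every odd `j ≥ 3` it is also at most `C R ^ (-j (j + 1) / 12)`. -/
theorem result :
    (∀ j : ℕ, 1 ≤ j → ∃ c : ℝ, 0 < c ∧ ∀ R : ℕ, j + 1 ≤ R →
      c * (R : ℝ) ^ (-((j : ℝ) * (j + 1) / 12)) ≤ coins.real {ω | Arms (j + 1) R ω}) ∧
    (∀ j : ℕ, 3 ≤ j → Odd j → ∃ C : ℝ, 0 < C ∧ ∀ R : ℕ, j + 1 ≤ R →
      coins.real {ω | Arms (j + 1) R ω} ≤ C * (R : ℝ) ^ (-((j : ℝ) * (j + 1) / 12))) := by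
  have hL : ∀ (m R : ℕ) (ω : ℤ × ℤ → Bool) (x y : ℤ × ℤ),
      Link m R ω x y ↔ Pool.Agent.W808.KS.BS m R ω x y := by
    intro m R ω x y
    constructor
    · intro h
      cases h with
      | rise j t h0 h h1 h2 h3 h4 => exact .rise j t h0 h h1 h2 h3 h4
      | fall j t h0 h h1 h2 h3 h4 => exact .fall j t h0 h h1 h2 h3 h4
      | wallL i h => exact .wallL i h
      | wallR i h => exact .wallR i h
    · intro h
      cases h with
      | rise j t h0 h h1 h2 h3 h4 => exact .rise j t h0 h h1 h2 h3 h4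
      | fall j t h0 h h1 h2 h3 h4 => exact .fall j t h0 h h1 h2 h3 h4
      | wallL i h => exact .wallL i h
      | wallR i h => exact .wallR i h
  have hArm : ∀ (m R : ℕ) (ω : ℤ × ℤ → Bool),
      Arms m R ω ↔ Pool.Agent.W808.KS.SArm m R ω := by
    intro m R ω
    have h : Link m R ω = Pool.Agent.W808.KS.BS m R ω := by
      funext x y
      exact propext (hL m R ω x y)
    unfold Arms Pool.Agent.W808.KS.SArm Conn
    rw [h]
  have hset : ∀ m R : ℕ, {ω | Arms m R ω} = {ω | Pool.Agent.W808.KS.SArm m R ω} := by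
    intro m R
    ext ω
    exact hArm _ _ ω
  refine ⟨?_, ?_⟩
  · intro j hj
    obtain ⟨c, hc, h⟩ := Pool.Agent.W808.KS.a_LBs (j + 1) (by omega)
    refine ⟨c, hc, fun R hR => ?_⟩
    have h1 := h R hR
    rw [hset]
    have e2 : ((j + 1 : ℕ) : ℝ) * (((j + 1 : ℕ) : ℝ) - 1) / 12 = (j : ℝ) * (j + 1) / 12 := by
      push_cast; ring
    rw [e2] at h1
    exact h1
  · intro j hj hodd
    obtain ⟨k, hk⟩ : ∃ k : ℕ, j + 1 = 2 * k := by
      obtain ⟨r, hr⟩ := hodd
      exact ⟨r + 1, by omega⟩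
    obtain ⟨C, hC, h⟩ := Pool.Agent.W808.KU.a_UB k (by omega)
    obtain ⟨e, he⟩ : ∃ e : ℝ, e = (j : ℝ) * (j + 1) / 12 := ⟨_, rfl⟩
    have he0 : 0 ≤ e := by rw [he]; positivity
    have hek : (k : ℝ) * (2 * k - 1) / 6 = e := by
      have hkr : (j : ℝ) = 2 * k - 1 := by
        have : ((j + 1 : ℕ) : ℝ) = ((2 * k : ℕ) : ℝ) := by rw [hk]
        push_cast at this
        linarith
      rw [he, hkr]
      ring
    rw [hek] at h
    rw [← he]
    refine ⟨C * 4 ^ e + ((j : ℝ) + 1) ^ e, by positivity, fun R hR => ?_⟩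
    have hRpos : (0 : ℝ) < (R : ℝ) := by
      have : 0 < R := by omega
      exact_mod_cast this
    rcases Nat.lt_or_ge (j + 1) R with hlt | hge
    · have h1 : coins.real {ω | Arms (j + 1) R ω} ≤ Pool.Agent.W808.KU.sPs k ((R - 1) / 2) := by
        rw [hset, hk]
        exact Pool.Agent.W808.KU.t_CMP k R ((R - 1) / 2) (by omega) (by omega) (by omega)
      have h2 := h ((R - 1) / 2) (by omega)
      have hq : (0 : ℝ) < (R : ℝ) / 4 := by positivity
      have hR4 : (R : ℝ) / 4 ≤ (((R - 1) / 2 : ℕ) : ℝ) := by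
        have : R ≤ 4 * ((R - 1) / 2) := by omega
        have : (R : ℝ) ≤ ((4 * ((R - 1) / 2) : ℕ) : ℝ) := by exact_mod_cast this
        push_cast at this
        linarith
      have h3 : ((((R - 1) / 2 : ℕ) : ℝ)) ^ (-e) ≤ ((R : ℝ) / 4) ^ (-e) :=
        Real.rpow_le_rpow_of_nonpos hq hR4 (by linarith)
      have h4 : ((R : ℝ) / 4) ^ (-e) = 4 ^ e * (R : ℝ) ^ (-e) := by
        rw [Real.div_rpow hRpos.le (by norm_num), Real.rpow_neg (by norm_num : (0 : ℝ) ≤ 4),
          div_inv_eq_mul, mul_comm]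
      calc coins.real {ω | Arms (j + 1) R ω} ≤ C * ((((R - 1) / 2 : ℕ) : ℝ)) ^ (-e) := h1.trans h2
        _ ≤ C * (4 ^ e * (R : ℝ) ^ (-e)) := by
            rw [← h4]; exact mul_le_mul_of_nonneg_left h3 hC.le
        _ = (C * 4 ^ e) * (R : ℝ) ^ (-e) := by ring
        _ ≤ (C * 4 ^ e + ((j : ℝ) + 1) ^ e) * (R : ℝ) ^ (-e) := by
            refine mul_le_mul_of_nonneg_right ?_ (by positivity)
            have : 0 ≤ ((j : ℝ) + 1) ^ e := by positivity
            linarith
    · have hRe : R = j + 1 := by omega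
      haveI : IsProbabilityMeasure coins := by unfold coins; infer_instance
      have h1 : coins.real {ω | Arms (j + 1) R ω} ≤ 1 := measureReal_le_one
      have h2 : ((j : ℝ) + 1) ^ e * (R : ℝ) ^ (-e) = 1 := by
        rw [hRe]
        push_cast
        rw [← Real.rpow_add (by positivity), add_neg_cancel, Real.rpow_zero]
      have h3 : 0 ≤ C * 4 ^ e * (R : ℝ) ^ (-e) := by positivity
      rw [add_mul, h2]
      linarith

end Pool.Agent.Results.MP_35f495_pr.SlitPlaneArms
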