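import Pool.Agent.W808.TA.Wrap
import Pool.Agent.W424.KI.Fin
import Pool.Agent.W808.TA.RSAll

/-!
Critical bond percolation on the square lattice `ℤ²`: the three-arm exponent of the plane is `2 / 3`,
with bounds sharp up to constants in all annuli.

The configuration is a random element of `Z2.edgeSet → Bool`, distributed according to the infinite
product of fair Bernoulli measures.
-/

set_option autoImplicit false

namespace Pool.Agent.Results.MP_35f495_pr.ThreeArms

open MeasureTheory

/-- The square lattice `ℤ²`: `u` and `v` are adjacent when their `ℓ¹` distance is `1`. -/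
def Z2 : SimpleGraph (ℤ × ℤ) where
  Adj u v := |u.1 - v.1| + |u.2 - v.2| = 1
  symm := ⟨fun u v h => by rw [abs_sub_comm v.1, abs_sub_comm v.2]; exact h⟩
  loopless := ⟨fun u h => by simp at h⟩

/-- Critical bond percolation: the edges of `ℤ²` are open (`true`) or closed (`false`) with
probability `1 / 2` each, independently. -/
noncomputable def crit : Measure (Z2.edgeSet → Bool) :=
  Measure.infinitePi (fun _ => ProbabilityTheory.bernoulliMeasure true false
    ⟨1/2, by norm_num, by norm_num⟩)

/-- The edges of the annulus: both endpoints in the box `[-n, n]²`, not both in the box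
`[-d, d]²`. -/
def ann (d n : ℕ) : Set (Sym2 (ℤ × ℤ)) :=
  {e | e ∈ Z2.edgeSet ∧ (∀ v ∈ e, max |v.1| |v.2| ≤ n) ∧ ∃ v ∈ e, (d : ℤ) < max |v.1| |v.2|}

/-- The graph of the open edges of the annulus. -/
def openAnn (d n : ℕ) (ω : Z2.edgeSet → Bool) : SimpleGraph (ℤ × ℤ) :=
  SimpleGraph.fromEdgeSet {e | e ∈ ann d n ∧ ∃ h : e ∈ Z2.edgeSet, ω ⟨e, h⟩ = true}

/-- The graph of all the edges of the annulus, open or closed, both endpoints of which avoid the set
`C`. -/
def avoid (d n : ℕ) (C : Set (ℤ × ℤ)) : SimpleGraph (ℤ × ℤ) :=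
  SimpleGraph.fromEdgeSet {e | e ∈ ann d n ∧ ∀ v ∈ e, v ∉ C}

/-- **Three arms.** There is a vertex `u` at sup-distance `d` from the origin whose open cluster in
the annulus contains a vertex at sup-distance `n`, and there is a lattice path of the annulus from
sup-distance `d` to sup-distance `n` which avoids this cluster.  (For `d < n`: an open arm, and two
dual-open arms on its two sides, separated from each other by the lattice path.) -/
def ThreeArms (d n : ℕ) (ω : Z2.edgeSet → Bool) : Prop :=
  ∃ u : ℤ × ℤ, max |u.1| |u.2| = d ∧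
    (∃ w : ℤ × ℤ, max |w.1| |w.2| = n ∧ (openAnn d n ω).Reachable u w) ∧
    ∃ x y : ℤ × ℤ, max |x.1| |x.2| = d ∧ max |y.1| |y.2| = n ∧
      (avoid d n {v | (openAnn d n ω).Reachable u v}).Reachable x y

/-- **The three-arm exponent is `2 / 3`.** In critical bond percolation on `ℤ²` the probability of three
arms in the annulus between the boxes `[-d, d]²` and `[-n, n]²` is of order `(d / n) ^ (2 / 3)`,
uniformly over all `1 ≤ d ≤ n`. -/
theorem result : ∃ c C : ℝ, 0 < c ∧ 0 < C ∧ ∀ d n : ℕ, 1 ≤ d → d ≤ n →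
    c * ((d : ℝ) / n) ^ (2 / 3 : ℝ) ≤ crit.real {ω | ThreeArms d n ω} ∧
    crit.real {ω | ThreeArms d n ω} ≤ C * ((d : ℝ) / n) ^ (2 / 3 : ℝ) := by
  obtain ⟨c, hc, h1⟩ := Pool.Agent.W808.TA.RSA.a_LOWB
  obtain ⟨C, hC, h2⟩ := Pool.Agent.W424.KI.u3
  refine ⟨c, C, hc, hC, fun d n hd hn => ?_⟩
  have h3 := Pool.Agent.W808.TA.law_three d n
  exact ⟨(h1 (0, 0) d n hd hn _ (Finset.Subset.refl _)).trans_eq h3.symm,
    h3.trans_le (h2 (0, 0) d n hd hn _ (Finset.Subset.refl _))⟩

end Pool.Agent.Results.MP_35f495_pr.ThreeArms
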