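import Pool.Agent.W424.NC.VolFin

/-!
Critical bond percolation on the square lattice: the volume exponent `δ = 91/5`, up to constants.
-/

namespace Pool.Agent.Results.MP_35f495_pr.VolumeExponent

open MeasureTheory

/-- The square lattice: two points of `ℤ²` are adjacent when they differ by one in exactly one
coordinate. -/
def Z2 : SimpleGraph (ℤ × ℤ) where
  Adj u v := |u.1 - v.1| + |u.2 - v.2| = 1
  symm := ⟨fun u v h => by rw [abs_sub_comm v.1, abs_sub_comm v.2]; exact h⟩
  loopless := ⟨fun u h => by simp at h⟩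

/-- Critical bond percolation: every edge of the square lattice is open (`true`) with
probability `1/2`, independently of the other edges. -/
noncomputable def crit : Measure (Z2.edgeSet → Bool) :=
  Measure.infinitePi (fun _ => ProbabilityTheory.bernoulliMeasure true false
    ⟨1/2, by norm_num, by norm_num⟩)

/-- The graph of the open edges. -/
def openGraph (ω : Z2.edgeSet → Bool) : SimpleGraph (ℤ × ℤ) :=
  SimpleGraph.fromEdgeSet {e | ∃ h : e ∈ Z2.edgeSet, ω ⟨e, h⟩ = true}

/-- The open cluster of the origin. -/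
def cluster (ω : Z2.edgeSet → Bool) : Set (ℤ × ℤ) := {v | (openGraph ω).Reachable (0, 0) v}

/-- `P(the cluster of the origin has at least n vertices)` is `n^(-5/91)` up to constants. -/
theorem result : ∃ c C : ℝ, 0 < c ∧ 0 < C ∧ ∀ n : ℕ, 1 ≤ n →
    c * (n : ℝ) ^ (-(5 / 91 : ℝ)) ≤ crit.real {ω | (n : ℕ∞) ≤ (cluster ω).encard} ∧
    crit.real {ω | (n : ℕ∞) ≤ (cluster ω).encard} ≤ C * (n : ℝ) ^ (-(5 / 91 : ℝ)) := by
  obtain ⟨c, hc, h1⟩ := Pool.Agent.W424.NC.vol_lower
  obtain ⟨C, hC, h2⟩ := Pool.Agent.W424.NC.vol_upper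
  refine ⟨c, C, hc, hC, fun n hn => ?_⟩
  exact ⟨h1 n hn, h2 n hn⟩

end Pool.Agent.Results.MP_35f495_pr.VolumeExponent
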